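import Pool.Agent.H265R3.ML.Struct

namespace Pool.Agent.H265R3.ML

open SimpleGraph Filter Topology MeasureTheory

/-- The path (`b = false`) or the cycle (`b = true`) on `n` vertices. -/
def std (b : Bool) (n : ℕ) : SimpleGraph (Fin n) :=
  SimpleGraph.fromRel (fun i j => i.val + 1 = j.val ∨ (b = true ∧ i.val = 0 ∧ j.val + 1 = n))

theorem exists_max {n : ℕ} (G : SimpleGraph (Fin n)) (h : ∃ σ : ℕ → Fin n, PathSeq G σ 6) :
    ∃ k, 6 ≤ k ∧ (∃ σ : ℕ → Fin n, PathSeq G σ k) ∧ ¬ ∃ τ : ℕ → Fin n, PathSeq G τ (k + 1) := by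
  by_contra hcon
  push Not at hcon
  have hall : ∀ k, 6 ≤ k → ∃ σ : ℕ → Fin n, PathSeq G σ k := by
    intro k hk
    induction k, hk using Nat.le_induction with
    | base => exact h
    | succ k hk ih =>
      obtain ⟨σ, hσ⟩ := ih
      exact hcon k hk ⟨σ, hσ⟩
  obtain ⟨σ, hσ⟩ := hall (6 + n) (by omega)
  have hinj : Function.Injective (fun i : Fin (6 + n + 1) => σ i) := by
    intro i j hij
    exact Fin.ext (hσ.1 (show (i : ℕ) ≤ 6 + n by omega) (show (j : ℕ) ≤ 6 + n by omega) hij)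
  have := Fintype.card_le_of_injective _ hinj
  rw [Fintype.card_fin, Fintype.card_fin] at this
  omega

theorem classify {n : ℕ} (G : SimpleGraph (Fin n)) (hG : G.Connected)
    (hA : ¬ IsMinor (pendG 5 2) G) (hB : ¬ IsMinor (pendG 6 1) G)
    (hlong : ∃ σ : ℕ → Fin n, PathSeq G σ 6) : ∃ b : Bool, Nonempty (G ≃g std b n) := by
  classical
  obtain ⟨k, hk, ⟨σ, hσ⟩, hmax⟩ := exists_max G hlong
  have hcov := covers hG hA hB σ k hk hσ hmax
  set f : Fin (k + 1) → Fin n := fun i => σ i with hf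
  have hinj : Function.Injective f := by
    intro i j hij
    exact Fin.ext (hσ.1 (show (i : ℕ) ≤ k by omega) (show (j : ℕ) ≤ k by omega) hij)
  have hsurj : Function.Surjective f := by
    intro w
    obtain ⟨i, hi, hiw⟩ := hcov w
    exact ⟨⟨i, by omega⟩, hiw⟩
  have hcard : k + 1 = n := by
    have := Fintype.card_of_bijective ⟨hinj, hsurj⟩
    simpa using this
  subst hcard
  have main : ∀ i j : Fin (k + 1), i.val < j.val → G.Adj (f i) (f j) →
      i.val + 1 = j.val ∨ (i.val = 0 ∧ j.val = k) := by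
    intro i j hij hadj
    by_contra hcon
    push Not at hcon
    by_cases hi : 1 ≤ i.val
    · exact no_chord hA hB σ k hk hσ i j hi (by omega) (by omega) hadj
    · have hi0 : i.val = 0 := by omega
      have hjk := hcon.2 hi0
      refine no_chord hA hB _ k hk hσ.rev (k - j) k (by omega) (by omega) le_rfl ?_
      have e1 : k - (k - j.val) = j.val := by omega
      have e2 : k - k = i.val := by omega
      change G.Adj (σ (k - (k - j.val))) (σ (k - k))
      rw [e1, e2]
      exact hadj.symm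
  have back : ∀ i j : Fin (k + 1), i.val + 1 = j.val → G.Adj (f i) (f j) := by
    intro i j hij
    exact hσ.adj hij (by omega)
  refine ⟨decide (G.Adj (σ 0) (σ k)), ⟨⟨(Equiv.ofBijective f ⟨hinj, hsurj⟩).symm, ?_⟩⟩⟩
  intro x y
  obtain ⟨i, rfl⟩ := hsurj x
  obtain ⟨j, rfl⟩ := hsurj y
  have ei : (Equiv.ofBijective f ⟨hinj, hsurj⟩).symm (f i) = i :=
    (Equiv.ofBijective f ⟨hinj, hsurj⟩).symm_apply_apply i
  have ej : (Equiv.ofBijective f ⟨hinj, hsurj⟩).symm (f j) = j :=
    (Equiv.ofBijective f ⟨hinj, hsurj⟩).symm_apply_apply j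
  rw [ei, ej]
  unfold std
  rw [SimpleGraph.fromRel_adj]
  constructor
  · rintro ⟨hne, (h | ⟨hb, h0, h1⟩) | (h | ⟨hb, h0, h1⟩)⟩
    · exact back i j h
    · have hb' : G.Adj (σ 0) (σ k) := by simpa using hb
      have e1 : j.val = k := by omega
      change G.Adj (σ i.val) (σ j.val)
      rw [h0, e1]
      exact hb'
    · exact (back j i h).symm
    · have hb' : G.Adj (σ 0) (σ k) := by simpa using hb
      have e1 : i.val = k := by omega
      change G.Adj (σ i.val) (σ j.val)
      rw [h0, e1]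
      exact hb'.symm
  · intro hadj
    have hne : i ≠ j := fun h => hadj.ne (by rw [h])
    refine ⟨hne, ?_⟩
    have hne' : i.val ≠ j.val := fun h => hne (Fin.ext h)
    rcases lt_or_gt_of_ne hne' with hlt | hlt
    · rcases main i j hlt hadj with h | ⟨h1, h2⟩
      · exact Or.inl (Or.inl h)
      · refine Or.inl (Or.inr ⟨?_, h1, by omega⟩)
        have h3 : G.Adj (σ i.val) (σ j.val) := hadj
        rw [h1, h2] at h3
        simpa using h3
    · rcases main j i hlt hadj.symm with h | ⟨h1, h2⟩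
      · exact Or.inr (Or.inl h)
      · refine Or.inr (Or.inr ⟨?_, h1, by omega⟩)
        have h3 : G.Adj (σ j.val) (σ i.val) := hadj.symm
        rw [h1, h2] at h3
        simpa using h3

theorem pathSeq_of_dist {n : ℕ} {G : SimpleGraph (Fin n)} (hG : G.Connected) (u v : Fin n)
    (h : 6 ≤ G.dist u v) : ∃ σ : ℕ → Fin n, PathSeq G σ 6 := by
  obtain ⟨p, hp⟩ := hG.exists_walk_length_eq_dist u v
  have hpath : p.IsPath := p.isPath_of_length_eq_dist hp
  refine ⟨p.getVert, ?_, ?_⟩
  · intro i hi j hj hij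
    have hi' : i ≤ 6 := hi
    have hj' : j ≤ 6 := hj
    exact hpath.getVert_injOn (by change i ≤ p.length; omega) (by change j ≤ p.length; omega) hij
  · intro i hi
    exact p.adj_getVert_succ (by omega)

theorem cls_eq {n : ℕ} {G H : SimpleGraph (Fin n)} (hG : G.Connected) (hH : H.Connected)
    (o : Fin n) (e : G ≃g H) : cls G o hG = cls H (e o) hH := by
  apply Quotient.sound
  exact ⟨e, rfl⟩

/-- A double star: `0` is adjacent to `1, …, a+1`, and `1` to all `v > a+1`. -/
def dst (n a : ℕ) : SimpleGraph (Fin n) :=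
  SimpleGraph.fromRel (fun u v =>
    (u.val = 0 ∧ 1 ≤ v.val ∧ v.val ≤ a + 1) ∨ (u.val = 1 ∧ a + 1 < v.val))

theorem dst_adj (n a : ℕ) (u v : Fin n) : (dst n a).Adj u v ↔ u ≠ v ∧
    (((u.val = 0 ∧ 1 ≤ v.val ∧ v.val ≤ a + 1) ∨ (u.val = 1 ∧ a + 1 < v.val)) ∨
     ((v.val = 0 ∧ 1 ≤ u.val ∧ u.val ≤ a + 1) ∨ (v.val = 1 ∧ a + 1 < u.val))) := by
  unfold dst
  rw [SimpleGraph.fromRel_adj]

theorem dst_adj0 {n a : ℕ} (hn : 2 ≤ n) (v : Fin n) :
    (dst n a).Adj ⟨0, by omega⟩ v ↔ 1 ≤ v.val ∧ v.val ≤ a + 1 := by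
  rw [dst_adj]
  constructor
  · rintro ⟨-, (h | h) | (h | h)⟩
    · exact h.2
    · simp at h
    · simp at h
    · have := h.2
      simp at this
  · intro h
    refine ⟨?_, Or.inl (Or.inl ⟨rfl, h⟩)⟩
    intro h'
    have := congrArg Fin.val h'
    simp at this
    omega

theorem dst_adj1 {n a : ℕ} (hn : 2 ≤ n) (v : Fin n) (hv : a + 1 < v.val) :
    (dst n a).Adj ⟨1, by omega⟩ v := by
  rw [dst_adj]
  refine ⟨?_, Or.inl (Or.inr ⟨rfl, hv⟩)⟩
  intro h'
  have := congrArg Fin.val h'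
  simp at this
  omega

theorem dst_connected {n a : ℕ} (hn : 2 ≤ n) : (dst n a).Connected := by
  rw [connected_iff_exists_forall_reachable]
  refine ⟨⟨0, by omega⟩, fun v => ?_⟩
  by_cases h0 : v.val = 0
  · have : v = ⟨0, by omega⟩ := Fin.ext h0
    rw [this]
  · by_cases h1 : v.val ≤ a + 1
    · exact Adj.reachable ((dst_adj0 hn v).2 ⟨by omega, h1⟩)
    · have e1 : (dst n a).Adj ⟨0, by omega⟩ ⟨1, by omega⟩ :=
        (dst_adj0 hn _).2 ⟨le_rfl, Nat.le_add_left 1 a⟩
      exact e1.reachable.trans (Adj.reachable (dst_adj1 hn v (by omega)))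

theorem dst_dist {n a : ℕ} (hn : 2 ≤ n) (v : Fin n) : (dst n a).dist ⟨0, by omega⟩ v ≤ 6 := by
  by_cases h0 : v.val = 0
  · have : v = ⟨0, by omega⟩ := Fin.ext h0
    rw [this]
    simp
  · by_cases h1 : v.val ≤ a + 1
    · have := dist_eq_one_iff_adj.2 ((dst_adj0 (a := a) hn v).2 ⟨by omega, h1⟩)
      omega
    · have e1 : (dst n a).Adj ⟨0, by omega⟩ ⟨1, by omega⟩ :=
        (dst_adj0 hn _).2 ⟨le_rfl, Nat.le_add_left 1 a⟩
      have h2 := dist_eq_one_iff_adj.2 e1
      have h3 := dist_eq_one_iff_adj.2 (dst_adj1 (a := a) hn v (by omega))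
      have h4 := (dst_connected (n := n) (a := a) hn).dist_triangle (u := ⟨0, by omega⟩)
        (v := ⟨1, by omega⟩) (w := v)
      omega

theorem dst_cover {n a : ℕ} (hn : 2 ≤ n) (u v : Fin n) (h : (dst n a).Adj u v) :
    u = ⟨0, by omega⟩ ∨ v = ⟨0, by omega⟩ ∨ u = ⟨1, by omega⟩ ∨ v = ⟨1, by omega⟩ := by
  rw [dst_adj] at h
  rcases h.2 with (h | h) | (h | h)
  · exact Or.inl (Fin.ext h.1)
  · exact Or.inr (Or.inr (Or.inl (Fin.ext h.1)))
  · exact Or.inr (Or.inl (Fin.ext h.1))
  · exact Or.inr (Or.inr (Or.inr (Fin.ext h.1)))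

/-- The degree of the root. -/
noncomputable def RG.rdeg : RG → ℕ :=
  Quotient.lift (fun a : RGraph => Nat.card (a.G.neighborSet a.o)) (by
    rintro a b ⟨e, he⟩
    have h := Nat.card_congr (e.mapNeighborSet a.o)
    rw [he] at h
    exact h)

theorem rdeg_dst {n a b : ℕ} (hn : 2 ≤ n) (ha : a + 2 ≤ n) (hb : b + 2 ≤ n) (hab : a < b) :
    RG.rdeg (cls (dst n a) ⟨0, by omega⟩ (dst_connected hn)) <
      RG.rdeg (cls (dst n b) ⟨0, by omega⟩ (dst_connected hn)) := by
  change Set.ncard ((dst n a).neighborSet ⟨0, by omega⟩) <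
    Set.ncard ((dst n b).neighborSet ⟨0, by omega⟩)
  apply Set.ncard_lt_ncard _ (Set.toFinite _)
  rw [Set.ssubset_iff_of_subset]
  · refine ⟨⟨b + 1, by omega⟩, ?_, ?_⟩
    · rw [mem_neighborSet, dst_adj0 hn]
      exact ⟨Nat.le_add_left 1 b, le_rfl⟩
    · rw [mem_neighborSet, dst_adj0 hn]
      intro h
      have := h.2
      simp at this
      omega
  · intro v hv
    rw [mem_neighborSet, dst_adj0 hn] at hv ⊢
    omega

/-- For `S2` the unlabelled model has no weak limit. -/
theorem not_convU_S2 : ¬ ConvU S2 := by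
  classical
  refine no_limit (expU S2) 6 (3 / 4) (by norm_num) (fun M => ?_)
  filter_upwards [eventually_gt_atTop (M + 8)] with n hn
  have hn2 : 2 ≤ n := by omega
  set U := unl S2 n with hU
  haveI : Finite (Ex S2 n) := by unfold Ex; infer_instance
  have hUfin : U.Finite := Set.finite_range _
  set A : Set RG := {x | x ∈ U ∧ RG.size (RG.ball 6 x) ≤ M} with hA
  have hAU : A ⊆ U := fun x hx => hx.1
  -- the double stars
  have hmem : ∀ a : Fin (n - 1), ∀ H ∈ S2, ¬ IsMinor H.2 (dst n a) := fun a =>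
    cover_S2 _ _ (dst_cover hn2)
  set h : Fin (n - 1) → RG := fun a => cls (dst n a) ⟨0, by omega⟩ (dst_connected hn2) with hh
  have hhinj : Function.Injective h := by
    intro a b hab
    by_contra hne
    have hne' : a.val ≠ b.val := fun h => hne (Fin.ext h)
    have ha := a.2
    have hb := b.2
    rcases lt_or_gt_of_ne hne' with hlt | hlt
    · have := rdeg_dst hn2 (by omega) (by omega) hlt
      have h2 : RG.rdeg (h a) = RG.rdeg (h b) := by rw [hab]
      exact absurd h2 this.ne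
    · have := rdeg_dst hn2 (by omega) (by omega) hlt
      have h2 : RG.rdeg (h a) = RG.rdeg (h b) := by rw [hab]
      exact absurd h2 this.ne'
  have hBsub : h '' Set.univ ⊆ U \ A := by
    rintro _ ⟨a, -, rfl⟩
    refine ⟨⟨⟨(dst n a, ⟨0, by omega⟩), dst_connected hn2, hmem a⟩, rfl⟩, ?_⟩
    rintro ⟨-, h2⟩
    have h3 : RG.size (RG.ball 6 (h a)) = n :=
      size_ball_full _ _ (dst_connected hn2) 6 (dst_dist hn2)
    omega
  have hBcard : (h '' Set.univ).ncard = n - 1 := by
    rw [Set.ncard_image_of_injective _ hhinj, Set.ncard_univ]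
    simp
  have hcard1 : n - 1 ≤ (U \ A).ncard := by
    rw [← hBcard]
    exact Set.ncard_le_ncard hBsub (hUfin.subset Set.diff_subset)
  have hcard2 : (U \ A).ncard + A.ncard = U.ncard :=
    Set.ncard_diff_add_ncard_of_subset hAU hUfin
  -- the long members
  have hAcard : A.ncard ≤ 2 * n := by
    by_cases hne : A.Nonempty
    · obtain ⟨x0, -⟩ := hne
      set g : Bool × Fin n → RG := fun q =>
        if hq : (std q.1 n).Connected then cls (std q.1 n) q.2 hq else x0 with hg
      have hsub : A ⊆ g '' Set.univ := by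
        rintro _ ⟨⟨p, rfl⟩, hsz⟩
        have hcon : p.1.1.Connected := p.2.1
        have hexc := p.2.2
        have hlong : ∃ v, 6 ≤ p.1.1.dist p.1.2 v := by
          by_contra hno
          push Not at hno
          have h3 : RG.size (RG.ball 6 p.cls) = n :=
            size_ball_full _ _ hcon 6 (fun v => (hno v).le)
          omega
        obtain ⟨v, hv⟩ := hlong
        obtain ⟨b, ⟨e⟩⟩ := classify p.1.1 hcon (hexc (pend 5 2) (Or.inl rfl))
          (hexc (pend 6 1) (Or.inr rfl)) (pathSeq_of_dist hcon _ _ hv)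
        have hcb : (std b n).Connected := e.connected_iff.1 hcon
        refine ⟨(b, e p.1.2), trivial, ?_⟩
        rw [hg]
        simp only [hcb, dif_pos]
        exact (cls_eq hcon hcb p.1.2 e).symm
      calc A.ncard ≤ (g '' Set.univ).ncard := Set.ncard_le_ncard hsub (Set.toFinite _)
        _ ≤ (Set.univ : Set (Bool × Fin n)).ncard := Set.ncard_image_le (Set.toFinite _)
        _ = 2 * n := by rw [Set.ncard_univ]; simp
    · rw [Set.not_nonempty_iff_eq_empty.1 hne]
      simp
  have hsum : ∑ᶠ x ∈ U, indF 6 M x = (A.ncard : ℝ) := by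
    rw [finsum_mem_eq_finite_toFinset_sum _ hUfin, Set.ncard_eq_toFinset_card A (hUfin.subset hAU)]
    unfold indF
    rw [Finset.sum_ite]
    simp only [Finset.sum_const_zero, add_zero, Finset.sum_const, nsmul_eq_mul, mul_one]
    congr 2
    ext x
    simp [hA]
  unfold expU
  rw [← hU, hsum]
  have hUpos : (0 : ℝ) < (U.ncard : ℝ) := by
    have : 0 < U.ncard := by omega
    exact_mod_cast this
  rw [div_le_iff₀ hUpos]
  have : 4 * A.ncard ≤ 3 * U.ncard := by omega
  have h' : (4 : ℝ) * (A.ncard : ℝ) ≤ 3 * (U.ncard : ℝ) := by exact_mod_cast this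
  linarith

end Pool.Agent.H265R3.ML
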