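import Pool.Agent.H265R3.ML.Tight

namespace Pool.Agent.H265R3.ML

open SimpleGraph Filter Topology MeasureTheory

theorem isMinor_of_inj {W V : Type} {H : SimpleGraph W} {G : SimpleGraph V} (φ : W → V)
    (hφ : Function.Injective φ) (hadj : ∀ w w', H.Adj w w' → G.Adj (φ w) (φ w')) :
    IsMinor H G := by
  refine ⟨fun w => {φ w}, ?_, ?_, ?_⟩
  · intro w
    rw [connected_iff_exists_forall_reachable]
    refine ⟨⟨φ w, rfl⟩, ?_⟩
    rintro ⟨x, hx⟩
    have hx' : x = φ w := hx
    subst hx'
    exact Reachable.refl _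
  · intro w w' hne
    rw [Set.disjoint_singleton]
    intro h
    exact hne (hφ h)
  · intro w w' h
    exact ⟨φ w, rfl, φ w', rfl, hadj w w' h⟩

theorem dist_le_of_no_path {V : Type} {G : SimpleGraph V} (hG : G.Connected) (k : ℕ)
    (h : ¬ IsMinor (pathGraph k) G) (u v : V) : G.dist u v ≤ k := by
  by_contra hlt
  push Not at hlt
  obtain ⟨p, hp⟩ := hG.exists_walk_length_eq_dist u v
  have hpath : p.IsPath := p.isPath_of_length_eq_dist hp
  apply h
  refine isMinor_of_inj (fun i : Fin k => p.getVert i) ?_ ?_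
  · intro i j hij
    have := hpath.getVert_injOn (by
        change (i : ℕ) ≤ p.length
        have := i.2; omega) (by
        change (j : ℕ) ≤ p.length
        have := j.2; omega) hij
    exact Fin.ext this
  · intro i j hij
    rw [pathGraph_adj] at hij
    have hi := i.2
    have hj := j.2
    rcases hij with h1 | h1
    · have := p.adj_getVert_succ (i := i) (by omega)
      rw [h1] at this
      exact this
    · have := p.adj_getVert_succ (i := j) (by omega)
      rw [h1] at this
      exact this.symm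

theorem size_ball_cls {n : ℕ} (G : SimpleGraph (Fin n)) (o : Fin n) (hG : G.Connected) (k : ℕ) :
    RG.size (RG.ball k (cls G o hG)) = Nat.card (ballSet G o k) := rfl

theorem size_ball_full {n : ℕ} (G : SimpleGraph (Fin n)) (o : Fin n) (hG : G.Connected) (k : ℕ)
    (h : ∀ v, G.dist o v ≤ k) : RG.size (RG.ball k (cls G o hG)) = n := by
  rw [size_ball_cls]
  have h1 : ballSet G o k = Set.univ := by
    rw [Set.eq_univ_iff_forall]
    exact h
  rw [h1, Nat.card_congr (Equiv.Set.univ (Fin n))]
  simp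

theorem indF_cls_zero {n : ℕ} (G : SimpleGraph (Fin n)) (o : Fin n) (hG : G.Connected) (k M : ℕ)
    (h : ∀ v, G.dist o v ≤ k) (hM : M < n) : indF k M (cls G o hG) = 0 := by
  unfold indF
  rw [size_ball_full G o hG k h, if_neg (by omega)]

/-- The star with centre `0`. -/
def starG (n : ℕ) (c : Fin n) : SimpleGraph (Fin n) where
  Adj u v := u ≠ v ∧ (u = c ∨ v = c)
  symm := ⟨fun _ _ h => ⟨h.1.symm, h.2.symm⟩⟩
  loopless := ⟨fun _ h => h.1 rfl⟩

theorem starG_connected (n : ℕ) (c : Fin n) : (starG n c).Connected := by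
  rw [connected_iff_exists_forall_reachable]
  refine ⟨c, fun v => ?_⟩
  by_cases h : c = v
  · subst h
    exact Reachable.refl _
  · exact Adj.reachable ⟨h, Or.inl rfl⟩

theorem starG_minor {n : ℕ} {c : Fin n} (H : FGraph) (hH : H.2.Connected)
    (hm : IsMinor H.2 (starG n c)) : IsStar H := by
  obtain ⟨B, -, hdis, hadj⟩ := hm
  by_cases hc : ∃ w, c ∈ B w
  · obtain ⟨w, hw⟩ := hc
    refine ⟨w, fun u v huv => ?_⟩
    obtain ⟨x, hx, y, hy, hxy⟩ := hadj u v huv
    rcases hxy.2 with h | h
    · left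
      by_contra hne
      subst h
      exact Set.disjoint_left.1 (hdis u w hne) hx hw
    · right
      by_contra hne
      subst h
      exact Set.disjoint_left.1 (hdis v w hne) hy hw
  · haveI := hH.nonempty
    refine ⟨Classical.arbitrary _, fun u v huv => ?_⟩
    exfalso
    obtain ⟨x, hx, y, hy, hxy⟩ := hadj u v huv
    rcases hxy.2 with h | h
    · subst h
      exact hc ⟨u, hx⟩
    · subst h
      exact hc ⟨v, hy⟩

/-- Every `S` containing a path and no star: the model is defined for every `n ≥ 1` and neither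
the labelled nor the unlabelled `R_n` has a weak limit. -/
theorem path_noStar (S : Set FGraph) (hconn : ∀ H ∈ S, H.2.Connected)
    (hpath : ∃ k, (⟨k, pathGraph k⟩ : FGraph) ∈ S) (hstar : ∀ H ∈ S, ¬ IsStar H) :
    (∀ n, 1 ≤ n → Nonempty (Ex S n)) ∧ ¬ ConvL S ∧ ¬ ConvU S := by
  obtain ⟨k, hk⟩ := hpath
  have hd : ∀ n, ∀ p : Ex S n, ∀ v, p.1.1.dist p.1.2 v ≤ k := by
    intro n p v
    exact dist_le_of_no_path p.2.1 k (p.2.2 _ hk) _ _
  have h0 : ∀ M n, M < n → ∀ p : Ex S n, indF k M p.cls = 0 := by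
    intro M n hMn p
    exact indF_cls_zero p.1.1 p.1.2 p.2.1 k M (hd n p) hMn
  refine ⟨?_, ?_, ?_⟩
  · intro n hn
    exact ⟨⟨(starG n ⟨0, hn⟩, ⟨0, hn⟩), starG_connected _ _, fun H hH hm =>
      hstar H hH (starG_minor H (hconn H hH) hm)⟩⟩
  · refine no_limit (expL S) k (1 / 2) (by norm_num) (fun M => ?_)
    filter_upwards [eventually_gt_atTop M] with n hn
    unfold expL
    rw [finsum_congr (h0 M n hn)]
    simp
  · refine no_limit (expU S) k (1 / 2) (by norm_num) (fun M => ?_)
    filter_upwards [eventually_gt_atTop M] with n hn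
    unfold expU
    have : ∑ᶠ x ∈ unl S n, indF k M x = 0 := by
      apply finsum_mem_of_eqOn_zero
      rintro _ ⟨p, rfl⟩
      exact h0 M n hn p
    rw [this]
    simp

end Pool.Agent.H265R3.ML
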