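import Pool.Agent.H265R3.ML.PathStar

namespace Pool.Agent.H265R3.ML

open SimpleGraph Filter Topology MeasureTheory

/-- The path `0, 1, …, m-1` with one more vertex `m` attached to the vertex `i`. -/
def pendG (m i : ℕ) : SimpleGraph (Fin (m + 1)) :=
  SimpleGraph.fromRel (fun u v : Fin (m + 1) =>
    (u.val + 1 = v.val ∧ v.val < m) ∨ (u.val = i ∧ v.val = m))

/-- The same as a finite graph. -/
def pend (m i : ℕ) : FGraph := ⟨m + 1, pendG m i⟩

theorem pend_adj (m i : ℕ) (u v : Fin (m + 1)) :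
    (pendG m i).Adj u v ↔ u ≠ v ∧ (((u.val + 1 = v.val ∧ v.val < m) ∨ (u.val = i ∧ v.val = m)) ∨
      ((v.val + 1 = u.val ∧ u.val < m) ∨ (v.val = i ∧ u.val = m))) := by
  unfold pendG
  rw [SimpleGraph.fromRel_adj]

instance (m i : ℕ) : DecidableRel (pendG m i).Adj := fun u v =>
  decidable_of_iff _ (pend_adj m i u v).symm

theorem pend_connected (m i : ℕ) (hi : i < m) : (pendG m i).Connected := by
  rw [connected_iff_exists_forall_reachable]
  refine ⟨(⟨0, by omega⟩ : Fin (m + 1)), ?_⟩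
  have h1 : ∀ j (hj : j < m), (pendG m i).Reachable (⟨0, by omega⟩ : Fin (m + 1))
      (⟨j, by omega⟩ : Fin (m + 1)) := by
    intro j
    induction j with
    | zero => intro _; exact Reachable.refl _
    | succ j ih =>
      intro hj
      refine (ih (by omega)).trans (Adj.reachable ?_)
      rw [pend_adj]
      refine ⟨?_, Or.inl (Or.inl ⟨rfl, hj⟩)⟩
      intro h
      have := congrArg Fin.val h
      simp at this
  rintro ⟨v, hv⟩
  by_cases h : v < m
  · exact h1 v h
  · have hvm : v = m := by omega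
    subst hvm
    refine (h1 i hi).trans (Adj.reachable ?_)
    rw [pend_adj]
    refine ⟨?_, Or.inl (Or.inr ⟨rfl, rfl⟩)⟩
    intro h'
    have := congrArg Fin.val h'
    simp at this
    omega

/-- The two excluded trees: the path on 5 vertices with a leaf attached to its middle vertex, and
the path on 6 vertices with a leaf attached to its second vertex. -/
def S2 : Set FGraph := {pend 5 2, pend 6 1}

/-! ### Paths have no such minor -/

theorem path_interval {n : ℕ} {B : Set (Fin n)} (hB : ((pathGraph n).induce B).Connected)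
    {x y : Fin n} (hx : x ∉ B) (hy : y ∈ B) :
    (y.val < x.val → ∀ z ∈ B, z.val < x.val) ∧ (x.val < y.val → ∀ z ∈ B, x.val < z.val) := by
  constructor
  · intro hyx z hz
    by_contra hzx
    push Not at hzx
    obtain ⟨p⟩ := hB.preconnected ⟨y, hy⟩ ⟨z, hz⟩
    obtain ⟨d, -, h1, h2⟩ := p.exists_boundary_dart {w | w.1.val < x.val} hyx (by
      change ¬ (z.val < x.val); omega)
    have hadj : (pathGraph n).Adj d.fst.1 d.snd.1 := d.adj
    rw [pathGraph_adj] at hadj
    have h1' : d.fst.1.val < x.val := h1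
    have h2' : ¬ d.snd.1.val < x.val := h2
    have hne : d.snd.1 ≠ x := fun h => hx (h ▸ d.snd.2)
    have hne' : d.snd.1.val ≠ x.val := fun h => hne (Fin.ext h)
    omega
  · intro hyx z hz
    by_contra hzx
    push Not at hzx
    obtain ⟨p⟩ := hB.preconnected ⟨y, hy⟩ ⟨z, hz⟩
    obtain ⟨d, -, h1, h2⟩ := p.exists_boundary_dart {w | x.val < w.1.val} hyx (by
      change ¬ (x.val < z.val); omega)
    have hadj : (pathGraph n).Adj d.fst.1 d.snd.1 := d.adj
    rw [pathGraph_adj] at hadj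
    have h1' : x.val < d.fst.1.val := h1
    have h2' : ¬ x.val < d.snd.1.val := h2
    have hne : d.snd.1 ≠ x := fun h => hx (h ▸ d.snd.2)
    have hne' : d.snd.1.val ≠ x.val := fun h => hne (Fin.ext h)
    omega

/-- A minor of a path has no vertex with three neighbours. -/
theorem path_minor_deg {n : ℕ} {W : Type} {H : SimpleGraph W} (hm : IsMinor H (pathGraph n))
    (c x₁ x₂ x₃ : W) (h1 : H.Adj c x₁) (h2 : H.Adj c x₂) (h3 : H.Adj c x₃) (h12 : x₁ ≠ x₂)
    (h13 : x₁ ≠ x₃) (h23 : x₂ ≠ x₃) : False := by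
  obtain ⟨B, hcon, hdis, hadj⟩ := hm
  have key : ∀ x, H.Adj c x → ∃ v : Fin n, v ∈ B x ∧ v ∉ B c ∧
      ((∀ z ∈ B c, z.val < v.val) ∧ (∃ z ∈ B c, z.val + 1 = v.val) ∨
       (∀ z ∈ B c, v.val < z.val) ∧ (∃ z ∈ B c, v.val + 1 = z.val)) := by
    intro x hx
    obtain ⟨y, hy, v, hv, hyv⟩ := hadj c x hx
    have hvc : v ∉ B c := fun h => Set.disjoint_left.1 (hdis c x hx.ne) h hv
    refine ⟨v, hv, hvc, ?_⟩
    have hint := path_interval (hcon c) hvc hy
    rw [pathGraph_adj] at hyv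
    rcases hyv with h | h
    · left
      exact ⟨hint.1 (by omega), y, hy, h⟩
    · right
      exact ⟨hint.2 (by omega), y, hy, h⟩
  obtain ⟨v1, hv1, hc1, k1⟩ := key x₁ h1
  obtain ⟨v2, hv2, hc2, k2⟩ := key x₂ h2
  obtain ⟨v3, hv3, hc3, k3⟩ := key x₃ h3
  have n12 : v1 ≠ v2 := fun h => Set.disjoint_left.1 (hdis _ _ h12) hv1 (h ▸ hv2)
  have n13 : v1 ≠ v3 := fun h => Set.disjoint_left.1 (hdis _ _ h13) hv1 (h ▸ hv3)
  have n23 : v2 ≠ v3 := fun h => Set.disjoint_left.1 (hdis _ _ h23) hv2 (h ▸ hv3)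
  have up : ∀ {v w : Fin n}, ((∀ z ∈ B c, z.val < v.val) ∧ (∃ z ∈ B c, z.val + 1 = v.val)) →
      ((∀ z ∈ B c, z.val < w.val) ∧ (∃ z ∈ B c, z.val + 1 = w.val)) → v = w := by
    rintro v w ⟨a1, z, hz, a2⟩ ⟨b1, z', hz', b2⟩
    have := a1 z' hz'
    have := b1 z hz
    exact Fin.ext (by omega)
  have dn : ∀ {v w : Fin n}, ((∀ z ∈ B c, v.val < z.val) ∧ (∃ z ∈ B c, v.val + 1 = z.val)) →
      ((∀ z ∈ B c, w.val < z.val) ∧ (∃ z ∈ B c, w.val + 1 = z.val)) → v = w := by
    rintro v w ⟨a1, z, hz, a2⟩ ⟨b1, z', hz', b2⟩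
    have := a1 z' hz'
    have := b1 z hz
    exact Fin.ext (by omega)
  rcases k1 with k1 | k1 <;> rcases k2 with k2 | k2
  · exact n12 (up k1 k2)
  · rcases k3 with k3 | k3
    · exact n13 (up k1 k3)
    · exact n23 (dn k2 k3)
  · rcases k3 with k3 | k3
    · exact n23 (up k2 k3)
    · exact n13 (dn k1 k3)
  · exact n12 (dn k1 k2)

theorem path_S2 (n : ℕ) : ∀ H ∈ S2, ¬ IsMinor H.2 (pathGraph n) := by
  intro H hH hm
  rcases hH with rfl | hH
  · have hm' : IsMinor (pendG 5 2) (pathGraph n) := hm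
    exact path_minor_deg hm' 2 1 3 5 (by decide) (by decide) (by decide) (by decide) (by decide)
      (by decide)
  · have hH' : H = pend 6 1 := hH
    subst hH'
    have hm' : IsMinor (pendG 6 1) (pathGraph n) := hm
    exact path_minor_deg hm' 1 0 2 6 (by decide) (by decide) (by decide) (by decide) (by decide)
      (by decide)

/-! ### Graphs with a vertex cover of size two -/

/-- If every edge of `G` contains `a` or `b`, then no minor of `G` has three disjoint edges. -/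
theorem cover_minor {V W : Type} {G : SimpleGraph V} {H : SimpleGraph W} (a b : V)
    (hG : ∀ u v, G.Adj u v → u = a ∨ v = a ∨ u = b ∨ v = b) (hm : IsMinor H G)
    (e : Fin 6 → W) (he : Function.Injective e) (h0 : H.Adj (e 0) (e 1)) (h1 : H.Adj (e 2) (e 3))
    (h2 : H.Adj (e 4) (e 5)) : False := by
  obtain ⟨B, -, hdis, hadj⟩ := hm
  have key : ∀ i j : Fin 6, H.Adj (e i) (e j) →
      (a ∈ B (e i) ∨ a ∈ B (e j)) ∨ (b ∈ B (e i) ∨ b ∈ B (e j)) := by
    intro i j hij
    obtain ⟨x, hx, y, hy, hxy⟩ := hadj _ _ hij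
    rcases hG x y hxy with h | h | h | h
    · subst h; exact Or.inl (Or.inl hx)
    · subst h; exact Or.inl (Or.inr hy)
    · subst h; exact Or.inr (Or.inl hx)
    · subst h; exact Or.inr (Or.inr hy)
  have uniq : ∀ (z : V) (i j : Fin 6), z ∈ B (e i) → z ∈ B (e j) → i = j := by
    intro z i j hi hj
    by_contra hne
    exact Set.disjoint_left.1 (hdis _ _ (fun h => hne (he h))) hi hj
  have ha : ∀ i j : Fin 6, a ∈ B (e i) → a ∈ B (e j) → i = j := uniq a
  have hb : ∀ i j : Fin 6, b ∈ B (e i) → b ∈ B (e j) → i = j := uniq b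
  have k0 := key 0 1 h0
  have k1 := key 2 3 h1
  have k2 := key 4 5 h2
  have hA : ∃ i : Fin 6, ∀ j, a ∈ B (e j) → j = i := by
    by_cases h : ∃ i, a ∈ B (e i)
    · obtain ⟨i, hi⟩ := h
      exact ⟨i, fun j hj => ha j i hj hi⟩
    · exact ⟨0, fun j hj => absurd ⟨j, hj⟩ h⟩
  have hB : ∃ i : Fin 6, ∀ j, b ∈ B (e j) → j = i := by
    by_cases h : ∃ i, b ∈ B (e i)
    · obtain ⟨i, hi⟩ := h
      exact ⟨i, fun j hj => hb j i hj hi⟩
    · exact ⟨0, fun j hj => absurd ⟨j, hj⟩ h⟩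
  obtain ⟨i, hi⟩ := hA
  obtain ⟨j, hj⟩ := hB
  have e0 : (0 = i ∨ 1 = i) ∨ (0 = j ∨ 1 = j) := by
    rcases k0 with (h | h) | (h | h)
    · exact Or.inl (Or.inl (hi _ h))
    · exact Or.inl (Or.inr (hi _ h))
    · exact Or.inr (Or.inl (hj _ h))
    · exact Or.inr (Or.inr (hj _ h))
  have e1 : (2 = i ∨ 3 = i) ∨ (2 = j ∨ 3 = j) := by
    rcases k1 with (h | h) | (h | h)
    · exact Or.inl (Or.inl (hi _ h))
    · exact Or.inl (Or.inr (hi _ h))
    · exact Or.inr (Or.inl (hj _ h))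
    · exact Or.inr (Or.inr (hj _ h))
  have e2 : (4 = i ∨ 5 = i) ∨ (4 = j ∨ 5 = j) := by
    rcases k2 with (h | h) | (h | h)
    · exact Or.inl (Or.inl (hi _ h))
    · exact Or.inl (Or.inr (hi _ h))
    · exact Or.inr (Or.inl (hj _ h))
    · exact Or.inr (Or.inr (hj _ h))
  clear hi hj k0 k1 k2
  omega

theorem cover_S2 {V : Type} {G : SimpleGraph V} (a b : V)
    (hG : ∀ u v, G.Adj u v → u = a ∨ v = a ∨ u = b ∨ v = b) :
    ∀ H ∈ S2, ¬ IsMinor H.2 G := by
  intro H hH hm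
  rcases hH with rfl | hH
  · have hm' : IsMinor (pendG 5 2) G := hm
    exact cover_minor a b hG hm' ![0, 1, 2, 5, 3, 4] (by decide) (by decide) (by decide)
      (by decide)
  · have hH' : H = pend 6 1 := hH
    subst hH'
    have hm' : IsMinor (pendG 6 1) G := hm
    exact cover_minor a b hG hm' ![1, 6, 2, 3, 4, 5] (by decide) (by decide) (by decide)
      (by decide)

end Pool.Agent.H265R3.ML
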