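import Pool.Agent.H265R3.ML.Spider

namespace Pool.Agent.H265R3.ML

open SimpleGraph Filter Topology MeasureTheory

variable {V : Type} {G : SimpleGraph V}

theorem spA_idx (hA : ¬ IsMinor (pendG 5 2) G) (σ : ℕ → V) (K : ℕ)
    (hinj : Set.InjOn σ (Set.Iic K)) (a0 a1 a2 a3 a4 a5 : ℕ)
    (hle : a0 ≤ K ∧ a1 ≤ K ∧ a2 ≤ K ∧ a3 ≤ K ∧ a4 ≤ K ∧ a5 ≤ K)
    (hne : a0 ≠ a1 ∧ a0 ≠ a2 ∧ a0 ≠ a3 ∧ a0 ≠ a4 ∧ a0 ≠ a5 ∧ a1 ≠ a2 ∧ a1 ≠ a3 ∧ a1 ≠ a4 ∧
      a1 ≠ a5 ∧ a2 ≠ a3 ∧ a2 ≠ a4 ∧ a2 ≠ a5 ∧ a3 ≠ a4 ∧ a3 ≠ a5 ∧ a4 ≠ a5)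
    (h01 : G.Adj (σ a0) (σ a1)) (h12 : G.Adj (σ a1) (σ a2)) (h23 : G.Adj (σ a2) (σ a3))
    (h34 : G.Adj (σ a3) (σ a4)) (h25 : G.Adj (σ a2) (σ a5)) : False := by
  apply hA
  refine isMinor_of_inj (fun i : Fin 6 => σ ((![a0, a1, a2, a3, a4, a5] : Fin 6 → ℕ) i)) ?_ ?_
  · intro i j hij
    have hK : ∀ i : Fin 6, (![a0, a1, a2, a3, a4, a5] : Fin 6 → ℕ) i ∈ Set.Iic K := by
      intro i
      fin_cases i <;> simp <;> omega
    have h := hinj (hK i) (hK j) hij
    revert h
    fin_cases i <;> fin_cases j <;> simp <;> omega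
  · intro i j hij
    rw [pend_adj] at hij
    revert hij
    fin_cases i <;> fin_cases j <;> simp [h01, h12, h23, h34, h25, h01.symm, h12.symm, h23.symm,
      h34.symm, h25.symm]

set_option maxHeartbeats 2000000 in
theorem spB_idx (hB : ¬ IsMinor (pendG 6 1) G) (σ : ℕ → V) (K : ℕ)
    (hinj : Set.InjOn σ (Set.Iic K)) (a0 a1 a2 a3 a4 a5 a6 : ℕ)
    (hle : a0 ≤ K ∧ a1 ≤ K ∧ a2 ≤ K ∧ a3 ≤ K ∧ a4 ≤ K ∧ a5 ≤ K ∧ a6 ≤ K)
    (hne : a0 ≠ a1 ∧ a0 ≠ a2 ∧ a0 ≠ a3 ∧ a0 ≠ a4 ∧ a0 ≠ a5 ∧ a0 ≠ a6 ∧ a1 ≠ a2 ∧ a1 ≠ a3 ∧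
      a1 ≠ a4 ∧ a1 ≠ a5 ∧ a1 ≠ a6 ∧ a2 ≠ a3 ∧ a2 ≠ a4 ∧ a2 ≠ a5 ∧ a2 ≠ a6 ∧ a3 ≠ a4 ∧
      a3 ≠ a5 ∧ a3 ≠ a6 ∧ a4 ≠ a5 ∧ a4 ≠ a6 ∧ a5 ≠ a6)
    (h01 : G.Adj (σ a0) (σ a1)) (h12 : G.Adj (σ a1) (σ a2)) (h23 : G.Adj (σ a2) (σ a3))
    (h34 : G.Adj (σ a3) (σ a4)) (h45 : G.Adj (σ a4) (σ a5)) (h16 : G.Adj (σ a1) (σ a6)) :
    False := by
  apply hB
  refine isMinor_of_inj (fun i : Fin 7 => σ ((![a0, a1, a2, a3, a4, a5, a6] : Fin 7 → ℕ) i)) ?_ ?_
  · intro i j hij
    have hK : ∀ i : Fin 7, (![a0, a1, a2, a3, a4, a5, a6] : Fin 7 → ℕ) i ∈ Set.Iic K := by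
      intro i
      fin_cases i <;> simp <;> omega
    have h := hinj (hK i) (hK j) hij
    revert h
    fin_cases i <;> fin_cases j <;> simp <;> omega
  · intro i j hij
    have key : ∀ (u v : Fin 7), (u.val + 1 = v.val ∧ v.val < 6) ∨ (u.val = 1 ∧ v.val = 6) →
        G.Adj (σ ((![a0, a1, a2, a3, a4, a5, a6] : Fin 7 → ℕ) u))
          (σ ((![a0, a1, a2, a3, a4, a5, a6] : Fin 7 → ℕ) v)) := by
      intro u v huv
      rcases huv with ⟨h1, h2⟩ | ⟨h1, h2⟩
      · obtain ⟨v, hv⟩ := v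
        simp only at h1 h2
        subst h1
        obtain ⟨u, hu⟩ := u
        have hu' : u < 5 := by simp only at h2; omega
        interval_cases u
        · exact h01
        · exact h12
        · exact h23
        · exact h34
        · exact h45
      · have hu : u = 1 := Fin.ext h1
        have hv : v = 6 := Fin.ext h2
        subst hu; subst hv
        exact h16
    rw [pend_adj] at hij
    rcases hij.2 with h | h
    · exact key i j h
    · exact (key j i h).symm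

/-- `σ 0, …, σ k` is a path of `G`. -/
def PathSeq (G : SimpleGraph V) (σ : ℕ → V) (k : ℕ) : Prop :=
  Set.InjOn σ (Set.Iic k) ∧ ∀ i, i < k → G.Adj (σ i) (σ (i + 1))

theorem PathSeq.adj {σ : ℕ → V} {k : ℕ} (h : PathSeq G σ k) {i j : ℕ} (hij : i + 1 = j)
    (hj : j ≤ k) : G.Adj (σ i) (σ j) := by
  subst hij
  exact h.2 i (by omega)

theorem PathSeq.adj' {σ : ℕ → V} {k : ℕ} (h : PathSeq G σ k) {i j : ℕ} (hij : i + 1 = j)
    (hj : j ≤ k) : G.Adj (σ j) (σ i) := (h.adj hij hj).symm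

theorem PathSeq.rev {σ : ℕ → V} {k : ℕ} (h : PathSeq G σ k) : PathSeq G (fun i => σ (k - i)) k := by
  refine ⟨?_, ?_⟩
  · intro i hi j hj hij
    have hi' : i ≤ k := hi
    have hj' : j ≤ k := hj
    have := h.1 (show k - i ∈ Set.Iic k from Nat.sub_le _ _)
      (show k - j ∈ Set.Iic k from Nat.sub_le _ _) hij
    omega
  · intro i hi
    exact h.adj' (by omega) (by omega)

/-- No chords. -/
theorem no_chord (hA : ¬ IsMinor (pendG 5 2) G) (hB : ¬ IsMinor (pendG 6 1) G) (σ : ℕ → V) (k : ℕ)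
    (hk : 6 ≤ k) (h : PathSeq G σ k) (i j : ℕ) (hi : 1 ≤ i) (hij : i + 2 ≤ j) (hj : j ≤ k)
    (hc : G.Adj (σ i) (σ j)) : False := by
  by_cases c1 : 2 ≤ i
  · by_cases c2 : i + 3 ≤ j
    · exact spA_idx hA σ k h.1 (i - 2) (i - 1) i (i + 1) (i + 2) j (by omega) (by omega)
        (h.adj (by omega) (by omega)) (h.adj (by omega) (by omega)) (h.adj (by omega) (by omega))
        (h.adj (by omega) (by omega)) hc
    · by_cases c3 : j + 1 ≤ k
      · exact spA_idx hA σ k h.1 (i - 2) (i - 1) i j (j + 1) (i + 1) (by omega) (by omega)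
          (h.adj (by omega) (by omega)) (h.adj (by omega) (by omega)) hc
          (h.adj (by omega) (by omega)) (h.adj (by omega) (by omega))
      · exact spB_idx hB σ k h.1 (i + 1) i (i - 1) (i - 2) (i - 3) (i - 4) j (by omega) (by omega)
          (h.adj' (by omega) (by omega)) (h.adj' (by omega) (by omega))
          (h.adj' (by omega) (by omega)) (h.adj' (by omega) (by omega))
          (h.adj' (by omega) (by omega)) hc
  · by_cases c2 : i + 3 ≤ j
    · by_cases c3 : j + 1 ≤ k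
      · exact spA_idx hA σ k h.1 (i + 2) (i + 1) i j (j + 1) (i - 1) (by omega) (by omega)
          (h.adj' (by omega) (by omega)) (h.adj' (by omega) (by omega)) hc
          (h.adj (by omega) (by omega)) (h.adj' (by omega) (by omega))
      · exact spB_idx hB σ k h.1 (i - 1) i (i + 1) (i + 2) (i + 3) (i + 4) j (by omega) (by omega)
          (h.adj (by omega) (by omega)) (h.adj (by omega) (by omega))
          (h.adj (by omega) (by omega)) (h.adj (by omega) (by omega))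
          (h.adj (by omega) (by omega)) hc
    · exact spB_idx hB σ k h.1 (i - 1) i j (j + 1) (j + 2) (j + 3) (i + 1) (by omega) (by omega)
        (h.adj (by omega) (by omega)) hc (h.adj (by omega) (by omega))
        (h.adj (by omega) (by omega)) (h.adj (by omega) (by omega)) (h.adj (by omega) (by omega))

/-- A longest path with at least seven vertices covers everything. -/
theorem covers (hG : G.Connected) (hA : ¬ IsMinor (pendG 5 2) G) (hB : ¬ IsMinor (pendG 6 1) G)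
    (σ : ℕ → V) (k : ℕ) (hk : 6 ≤ k) (h : PathSeq G σ k)
    (hmax : ¬ ∃ τ : ℕ → V, PathSeq G τ (k + 1)) (w : V) : ∃ i, i ≤ k ∧ σ i = w := by
  by_contra hw
  obtain ⟨p⟩ := hG.preconnected (σ 0) w
  obtain ⟨d, -, h1, h2⟩ := p.exists_boundary_dart {v | ∃ i, i ≤ k ∧ σ i = v} ⟨0, by omega, rfl⟩ hw
  obtain ⟨i, hik, hi⟩ := h1
  have hadj : G.Adj (σ i) d.snd := by
    rw [hi]; exact d.adj
  generalize d.snd = x at h2 hadj
  have hx : ∀ j, j ≤ k → σ j ≠ x := fun j hj he => h2 ⟨j, hj, he⟩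
  -- extended sequence
  set τ : ℕ → V := fun j => if j ≤ k then σ j else x with hτ
  have hτ1 : ∀ j, j ≤ k → τ j = σ j := fun j hj => by simp [hτ, hj]
  have hτ2 : τ (k + 1) = x := by simp [hτ]
  have hτinj : Set.InjOn τ (Set.Iic (k + 1)) := by
    intro a ha b hb hab
    have ha' : a ≤ k + 1 := ha
    have hb' : b ≤ k + 1 := hb
    by_cases ca : a ≤ k
    · by_cases cb : b ≤ k
      · rw [hτ1 a ca, hτ1 b cb] at hab
        exact h.1 ca cb hab
      · have : b = k + 1 := by omega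
        subst this
        rw [hτ1 a ca, hτ2] at hab
        exact absurd hab (hx a ca)
    · have : a = k + 1 := by omega
      subst this
      by_cases cb : b ≤ k
      · rw [hτ1 b cb, hτ2] at hab
        exact absurd hab.symm (hx b cb)
      · omega
  have hadjτ : ∀ {a b : ℕ}, a + 1 = b → b ≤ k → G.Adj (τ a) (τ b) := by
    intro a b hab hb
    rw [hτ1 a (by omega), hτ1 b hb]
    exact h.adj hab hb
  have hpend : G.Adj (τ i) (τ (k + 1)) := by
    rw [hτ1 i hik, hτ2]; exact hadj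
  by_cases c0 : i = 0
  · subst c0
    apply hmax
    refine ⟨fun j => if j = 0 then x else σ (j - 1), ?_, ?_⟩
    · intro a ha b hb hab
      have ha' : a ≤ k + 1 := ha
      have hb' : b ≤ k + 1 := hb
      by_cases ca : a = 0
      · by_cases cb : b = 0
        · omega
        · simp only [ca, cb, if_true, if_false] at hab
          exact absurd hab.symm (hx (b - 1) (by omega))
      · by_cases cb : b = 0
        · simp only [ca, cb, if_true, if_false] at hab
          exact absurd hab (hx (a - 1) (by omega))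
        · simp only [ca, cb, if_false] at hab
          have := h.1 (show a - 1 ≤ k by omega) (show b - 1 ≤ k by omega) hab
          omega
    · intro a ha
      by_cases ca : a = 0
      · subst ca
        simpa using hadj.symm
      · have : a + 1 ≠ 0 := by omega
        simp only [ca, this, if_false]
        exact h.adj (by omega) (by omega)
  · by_cases ck : i = k
    · subst ck
      apply hmax
      refine ⟨τ, hτinj, ?_⟩
      intro a ha
      by_cases ca : a = i
      · subst ca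
        exact hpend
      · exact hadjτ rfl (by omega)
    · by_cases c1 : i = 1
      · subst c1
        exact spB_idx hB τ (k + 1) hτinj 0 1 2 3 4 5 (k + 1) (by omega) (by omega)
          (hadjτ rfl (by omega)) (hadjτ rfl (by omega)) (hadjτ rfl (by omega))
          (hadjτ rfl (by omega)) (hadjτ rfl (by omega)) hpend
      · by_cases c2 : i + 1 = k
        · exact spB_idx hB τ (k + 1) hτinj (i + 1) i (i - 1) (i - 2) (i - 3) (i - 4) (k + 1)
            (by omega) (by omega)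
            (hadjτ (by omega) (by omega)).symm (hadjτ (by omega) (by omega)).symm
            (hadjτ (by omega) (by omega)).symm (hadjτ (by omega) (by omega)).symm
            (hadjτ (by omega) (by omega)).symm hpend
        · exact spA_idx hA τ (k + 1) hτinj (i - 2) (i - 1) i (i + 1) (i + 2) (k + 1)
            (by omega) (by omega)
            (hadjτ (by omega) (by omega)) (hadjτ (by omega) (by omega))
            (hadjτ (by omega) (by omega)) (hadjτ (by omega) (by omega)) hpend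

end Pool.Agent.H265R3.ML
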