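import Pool.Agent.H265R3.ML.Defs

namespace Pool.Agent.H265R3.ML

open SimpleGraph Filter Topology MeasureTheory

/-- Number of vertices. -/
noncomputable def RG.size : RG → ℕ :=
  Quotient.lift (fun a : RGraph => Nat.card a.V) (by
    rintro a b ⟨e, -⟩
    exact Nat.card_congr e.toEquiv)

theorem continuous_comp_ball (k : ℕ) (g : RG → ℝ) : Continuous (fun x => g (RG.ball k x)) := by
  have h3 : @Continuous RG ℝ (TopologicalSpace.induced (RG.ball k) ⊥) _
      (fun x => g (RG.ball k x)) := by
    refine @Continuous.mk RG ℝ (TopologicalSpace.induced (RG.ball k) ⊥) _ _ ?_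
    intro s _
    exact ⟨g ⁻¹' s, trivial, rfl⟩
  have h4 : (instTopologicalSpaceRG : TopologicalSpace RG) ≤
      TopologicalSpace.induced (RG.ball k) ⊥ := iInf_le _ k
  exact continuous_le_dom h4 h3

/-- The indicator of `ball of radius k has at most M vertices`. -/
noncomputable def indF (k M : ℕ) : RG → ℝ := fun x => if RG.size (RG.ball k x) ≤ M then 1 else 0

theorem indF_continuous (k M : ℕ) : Continuous (indF k M) :=
  continuous_comp_ball k (fun y => if RG.size y ≤ M then (1 : ℝ) else 0)

theorem indF_bound (k M : ℕ) (x : RG) : ‖indF k M x‖ ≤ 1 := by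
  unfold indF
  split_ifs <;> simp

/-- The same as a bounded continuous function. -/
noncomputable def indB (k M : ℕ) : BoundedContinuousFunction RG ℝ :=
  BoundedContinuousFunction.ofNormedAddCommGroup (indF k M) (indF_continuous k M) 1
    (indF_bound k M)

theorem indB_apply (k M : ℕ) (x : RG) : indB k M x = indF k M x := rfl

theorem measurableSet_sz (k M : ℕ) : MeasurableSet {x : RG | RG.size (RG.ball k x) ≤ M} := by
  have h : {x : RG | RG.size (RG.ball k x) ≤ M} = (indF k M) ⁻¹' (Set.Ioi (0 : ℝ)) := by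
    ext x
    simp only [indF, Set.mem_preimage, Set.mem_Ioi]
    constructor
    · intro h
      have h' : RG.size (RG.ball k x) ≤ M := h
      simp [h']
    · intro h
      by_contra h'
      have h'' : ¬ RG.size (RG.ball k x) ≤ M := h'
      simp [h''] at h
  rw [h]
  exact (isOpen_Ioi.preimage (indF_continuous k M)).measurableSet

theorem integral_indB (μ : ProbabilityMeasure RG) (k M : ℕ) :
    ∫ x, indB k M x ∂(μ : Measure RG) =
      (μ : Measure RG).real {x : RG | RG.size (RG.ball k x) ≤ M} := by
  have h : (fun x => indB k M x) =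
      Set.indicator {x : RG | RG.size (RG.ball k x) ≤ M} (fun _ => (1 : ℝ)) := by
    ext x
    rw [indB_apply]
    unfold indF
    by_cases hx : RG.size (RG.ball k x) ≤ M
    · rw [if_pos hx, Set.indicator_of_mem (by exact hx)]
    · rw [if_neg hx, Set.indicator_of_notMem (by exact hx)]
  rw [h, integral_indicator (measurableSet_sz k M)]
  simp

theorem tendsto_sz (μ : ProbabilityMeasure RG) (k : ℕ) :
    Tendsto (fun M => ∫ x, indB k M x ∂(μ : Measure RG)) atTop (𝓝 1) := by
  have hmono : Monotone (fun M : ℕ => {x : RG | RG.size (RG.ball k x) ≤ M}) := by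
    intro a b hab x hx
    exact le_trans hx hab
  have h1 := tendsto_measure_iUnion_atTop (μ := (μ : Measure RG)) hmono
  have hU : (⋃ M : ℕ, {x : RG | RG.size (RG.ball k x) ≤ M}) = Set.univ := by
    rw [Set.eq_univ_iff_forall]
    intro x
    rw [Set.mem_iUnion]
    exact ⟨_, le_refl (RG.size (RG.ball k x))⟩
  rw [hU, measure_univ] at h1
  have h2 := (ENNReal.tendsto_toReal ENNReal.one_ne_top).comp h1
  simp only [integral_indB]
  simpa [Measure.real, Function.comp_def] using h2

/-- No weak limit if a positive proportion of the mass escapes. -/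
theorem no_limit (E : ℕ → (RG → ℝ) → ℝ) (k : ℕ) (c : ℝ) (hc : c < 1)
    (hE : ∀ M : ℕ, ∀ᶠ n in atTop, E n (indF k M) ≤ c) :
    ¬ ∃ μ : ProbabilityMeasure RG, ∀ f : BoundedContinuousFunction RG ℝ,
      Tendsto (fun n => E n f) atTop (𝓝 (∫ x, f x ∂(μ : Measure RG))) := by
  rintro ⟨μ, hμ⟩
  have h1 : ∀ M : ℕ, ∫ x, indB k M x ∂(μ : Measure RG) ≤ c := by
    intro M
    exact le_of_tendsto (hμ (indB k M)) (hE M)
  have h2 := le_of_tendsto (tendsto_sz μ k) (Eventually.of_forall h1)
  linarith

end Pool.Agent.H265R3.ML
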